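import Mathlib

set_option autoImplicit false

/-! # Bombieri type inequalities for the class S (MP_7d58db_an): definitions and tasks

`f ∈ S`, `G z = Y z / z` with `f (z ^ 2) = 1 / (G z) ^ 2` the odd transform, `G = 1/z - z + h`.
The Koebe function is `Y z = 1 - z ^ 2`, `h = 0`. -/

namespace Pool.Agent.H33R3.Bom

open Complex Metric Set Filter Topology

/-- Taylor coefficient at the origin -/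
noncomputable def coeff (n : ℕ) (f : ℂ → ℂ) : ℂ := iteratedDeriv n f 0 / (n.factorial : ℂ)

/-- the class `S` -/
structure InS (f : ℂ → ℂ) : Prop where
  diff : DifferentiableOn ℂ f (ball 0 1)
  inj : InjOn f (ball 0 1)
  zero : f 0 = 0
  one : deriv f 0 = 1

/-- `G z = Y z / z` is odd, univalent, with a simple pole at `0` and without zeros -/
structure IsG (Y : ℂ → ℂ) : Prop where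
  diff : DifferentiableOn ℂ Y (ball 0 1)
  even : ∀ z ∈ ball (0 : ℂ) 1, Y (-z) = Y z
  one : Y 0 = 1
  ne : ∀ z ∈ ball (0 : ℂ) 1, Y z ≠ 0
  inj : InjOn (fun z => Y z / z) (ball 0 1 \ {0})

/-- `G z - 1 / z + z` -/
noncomputable def hh (Y : ℂ → ℂ) (z : ℂ) : ℂ := dslope Y 0 z + z

/-- `2 - Re a_2` -/
noncomputable def ep (Y : ℂ → ℂ) : ℝ := 2 * (deriv (hh Y) 0).re

/-- `A z = log ((G ζ + G z) (z - ζ) / ((G ζ - G z) (z + ζ)))` -/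
structure LogFor (Y : ℂ → ℂ) (ζ : ℂ) (A : ℂ → ℂ) : Prop where
  diff : DifferentiableOn ℂ A (ball 0 1)
  zero : A 0 = 0
  odd : ∀ z ∈ ball (0 : ℂ) 1, A (-z) = -A z
  eq : ∀ z ∈ ball (0 : ℂ) 1,
    (Y ζ * z - Y z * ζ) * (z + ζ) * exp (A z) = (Y ζ * z + Y z * ζ) * (z - ζ)

/-- `Re ∫ conj φ * z * ψ dθ` over the circle of radius `R` -/
noncomputable def J (R : ℝ) (φ ψ : ℂ → ℂ) : ℝ :=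
  (∫ θ in (0 : ℝ)..(2 * Real.pi), (starRingEnd ℂ) (φ (circleMap 0 R θ)) *
    (circleMap 0 R θ * ψ (circleMap 0 R θ))).re

/-- the negative Laurent coefficients of `s G + t₁ log((W₁+G)/(W₁-G)) + t₂ log((W₂+G)/(W₂-G))` -/
noncomputable def dd (s t₁ t₂ ζ₁ ζ₂ : ℂ) (k : ℕ) : ℂ :=
  (if k = 1 then s else 0) +
    (if Odd k then 2 / (k : ℂ) * (t₁ * ζ₁ ^ k + t₂ * ζ₂ ^ k) else 0)

/-- TASK A: the odd square root transform -/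
def TaskA : Prop :=
  ∀ f : ℂ → ℂ, InS f → ∃ Y : ℂ → ℂ, IsG Y ∧
    (∀ z ∈ ball (0 : ℂ) 1, f (z ^ 2) * Y z ^ 2 = z ^ 2) ∧ ep Y = 2 - (coeff 2 f).re

/-- TASK B: the area theorem for `G` -/
def TaskB : Prop :=
  ∀ Y : ℂ → ℂ, IsG Y → 0 ≤ ep Y ∧ ep Y ≤ 4 ∧
    ∀ z ∈ ball (0 : ℂ) 1, ‖hh Y z‖ ^ 2 * (1 - ‖z‖ ^ 2) ≤ ep Y * ‖z‖ ^ 2

/-- TASK D: existence of the logarithm -/
def TaskD : Prop :=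
  ∀ Y : ℂ → ℂ, IsG Y → ∀ ζ ∈ ball (0 : ℂ) 1, ζ ≠ 0 → ∃ A : ℂ → ℂ, LogFor Y ζ A

/-- TASK C1: area inequality on circles for polynomials of `G` -/
def TaskC1 : Prop :=
  ∀ Y : ℂ → ℂ, IsG Y → ∀ (V : Polynomial ℂ) (R : ℝ), 0 < R → R < 1 →
    J R (fun z => V.eval (Y z / z)) (deriv fun z => V.eval (Y z / z)) ≤ 0

/-- TASK C2: Runge approximation on the curve `G (|z| = R)` -/
def TaskC2 : Prop :=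
  ∀ Y : ℂ → ℂ, IsG Y → ∀ R : ℝ, R < 1 → ∀ ζ : ℂ, ζ ≠ 0 → ‖ζ‖ < R → ∀ δ : ℝ, 0 < δ →
    ∃ q : Polynomial ℂ, ∀ z : ℂ, ‖z‖ = R → ‖q.eval (Y z / z) - (Y ζ / ζ - Y z / z)⁻¹‖ ≤ δ

/-- TASK C3: passage to the limit in the area inequality -/
def TaskC3 : Prop :=
  TaskC1 → ∀ Y : ℂ → ℂ, IsG Y → ∀ R : ℝ, 0 < R → R < 1 → ∀ Q φ : ℂ → ℂ,
    (∀ δ : ℝ, 0 < δ → ∃ q : Polynomial ℂ, ∀ z : ℂ, ‖z‖ = R → ‖q.eval (Y z / z) - Q z‖ ≤ δ) →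
    (∀ z : ℂ, ‖z‖ = R → HasDerivAt φ (Q z * deriv (fun z => Y z / z) z) z) →
    J R φ (deriv φ) ≤ 0

/-- TASK C4: the circle functional in terms of Laurent coefficients -/
def TaskC4 : Prop :=
  ∀ (R r₀ C : ℝ) (c d : ℕ → ℂ) (Φ : ℂ → ℂ), 0 < r₀ → r₀ < R → R < 1 → d 0 = 0 →
    (∀ z ∈ ball (0 : ℂ) 1, HasSum (fun k : ℕ => c k * z ^ k) (Φ z)) →
    (∀ k, ‖d k‖ ≤ C * r₀ ^ k) →
    Summable (fun k : ℕ => (k : ℝ) * ‖c k‖ ^ 2 * R ^ (2 * k)) ∧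
    Summable (fun k : ℕ => (k : ℝ) * ‖d k‖ ^ 2 * (R⁻¹) ^ (2 * k)) ∧
    J R (fun z => Φ z + ∑' k : ℕ, d k * (z⁻¹) ^ k) (deriv fun z => Φ z + ∑' k : ℕ, d k * (z⁻¹) ^ k) =
      2 * Real.pi * (∑' k : ℕ, (k : ℝ) * ‖c k‖ ^ 2 * R ^ (2 * k) -
        ∑' k : ℕ, (k : ℝ) * ‖d k‖ ^ 2 * (R⁻¹) ^ (2 * k))

/-- TASK C: the Grunsky type inequality -/
def TaskC : Prop :=
  ∀ Y : ℂ → ℂ, IsG Y → ∀ (ζ₁ ζ₂ : ℂ) (A₁ A₂ : ℂ → ℂ), ζ₁ ≠ 0 → ζ₂ ≠ 0 → ‖ζ₁‖ < 1 → ‖ζ₂‖ < 1 →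
    LogFor Y ζ₁ A₁ → LogFor Y ζ₂ A₂ → ∀ (s t₁ t₂ : ℂ) (c : ℕ → ℂ),
    (∀ z ∈ ball (0 : ℂ) 1, HasSum (fun k : ℕ => c k * z ^ k)
      (s * dslope Y 0 z + t₁ * A₁ z + t₂ * A₂ z)) →
    ∀ N : ℕ, ∑ k ∈ Finset.range N, (k : ℝ) * ‖c k‖ ^ 2 ≤
      ∑' k : ℕ, (k : ℝ) * ‖dd s t₁ t₂ ζ₁ ζ₂ k‖ ^ 2

/-- TASK C5a: derivative of the logarithm on the annulus `‖ζ‖ < ‖z‖ < 1` -/
def TaskC5a : Prop :=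
  ∀ Y : ℂ → ℂ, IsG Y → ∀ (ζ : ℂ) (A : ℂ → ℂ), ζ ≠ 0 → LogFor Y ζ A →
    ∀ z : ℂ, ‖ζ‖ < ‖z‖ → ‖z‖ < 1 →
      HasDerivAt (fun z => A z + ∑' k : ℕ, (if Odd k then 2 / (k : ℂ) * ζ ^ k else 0) * (z⁻¹) ^ k)
        (((Y ζ / ζ - Y z / z)⁻¹ + (Y ζ / ζ + Y z / z)⁻¹) * deriv (fun z => Y z / z) z) z

/-- TASK C5: assembly of TASK C -/
def TaskC5 : Prop :=
  TaskC5a → TaskC2 → (∀ Y : ℂ → ℂ, IsG Y → ∀ R : ℝ, 0 < R → R < 1 → ∀ Q φ : ℂ → ℂ,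
    (∀ δ : ℝ, 0 < δ → ∃ q : Polynomial ℂ, ∀ z : ℂ, ‖z‖ = R → ‖q.eval (Y z / z) - Q z‖ ≤ δ) →
    (∀ z : ℂ, ‖z‖ = R → HasDerivAt φ (Q z * deriv (fun z => Y z / z) z) z) →
    J R φ (deriv φ) ≤ 0) → TaskC4 → TaskC

/-- TASK E1: the pairing inequality -/
def TaskE1 : Prop :=
  TaskC → ∀ Y : ℂ → ℂ, IsG Y → ∀ (ζ : ℂ) (A₁ A₂ : ℂ → ℂ), ζ ≠ 0 → ‖ζ‖ < 1 →
    LogFor Y ζ A₁ → LogFor Y ((starRingEnd ℂ) ζ) A₂ → ∀ (s : ℝ) (t : ℂ),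
    0 ≤ s ^ 2 * (ep Y / 2) +
      4 * s * (t * hh Y ζ + (starRingEnd ℂ) t * hh Y ((starRingEnd ℂ) ζ)).re +
      4 * (∑' k : ℕ, if Odd k then (2 * (t * ζ ^ k).re) ^ 2 / (k : ℝ) else 0) +
      2 * (t ^ 2 * A₁ ζ + t * (starRingEnd ℂ) t * (A₂ ζ + A₁ ((starRingEnd ℂ) ζ)) +
        (starRingEnd ℂ) t ^ 2 * A₂ ((starRingEnd ℂ) ζ)).re

/-- The conclusion of TASK E2 -/
def Star : Prop :=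
  ∀ Y : ℂ → ℂ, IsG Y → ∀ ζ ∈ ball (0 : ℂ) 1, ζ.re ≠ 0 → ζ.im ≠ 0 →
    ‖hh Y ζ + (starRingEnd ℂ) (hh Y ((starRingEnd ℂ) ζ))‖ ^ 2 ≤
      ep Y * Real.log ((1 + ‖ζ‖ ^ 2) / (1 - ‖ζ‖ ^ 2) *
        (‖Y ζ / ζ + Y ((starRingEnd ℂ) ζ) / (starRingEnd ℂ) ζ‖ * |ζ.im| /
          (‖Y ζ / ζ - Y ((starRingEnd ℂ) ζ) / (starRingEnd ℂ) ζ‖ * |ζ.re|)))

/-- TASK E2: from the pairing inequality to the closed form -/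
def TaskE2 : Prop :=
  TaskD → (∀ Y : ℂ → ℂ, IsG Y → ∀ (ζ : ℂ) (A₁ A₂ : ℂ → ℂ), ζ ≠ 0 → ‖ζ‖ < 1 →
    LogFor Y ζ A₁ → LogFor Y ((starRingEnd ℂ) ζ) A₂ → ∀ (s : ℝ) (t : ℂ),
    0 ≤ s ^ 2 * (ep Y / 2) +
      4 * s * (t * hh Y ζ + (starRingEnd ℂ) t * hh Y ((starRingEnd ℂ) ζ)).re +
      4 * (∑' k : ℕ, if Odd k then (2 * (t * ζ ^ k).re) ^ 2 / (k : ℝ) else 0) +
      2 * (t ^ 2 * A₁ ζ + t * (starRingEnd ℂ) t * (A₂ ζ + A₁ ((starRingEnd ℂ) ζ)) +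
        (starRingEnd ℂ) t ^ 2 * A₂ ((starRingEnd ℂ) ζ)).re) → Star

/-- TASK F: pointwise bound off the axes -/
def TaskF : Prop :=
  TaskB → Star → ∀ Y : ℂ → ℂ, IsG Y → ∀ ζ ∈ ball (0 : ℂ) 1,
    ‖hh Y ζ + (starRingEnd ℂ) (hh Y ((starRingEnd ℂ) ζ))‖ * |ζ.re * ζ.im| * (1 - ‖ζ‖ ^ 2) ^ 2 ≤
      4 * ep Y

/-- The conclusion of TASK G -/
def UBound : Prop :=
  ∀ Y : ℂ → ℂ, IsG Y → ∀ z ∈ ball (0 : ℂ) 1,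
    ‖hh Y z + (starRingEnd ℂ) (hh Y ((starRingEnd ℂ) z))‖ * (1 - ‖z‖) ^ 3 ≤ 1024 * ep Y

/-- TASK G: maximum principle -/
def TaskG : Prop :=
  (∀ Y : ℂ → ℂ, IsG Y → 0 ≤ ep Y) → (∀ Y : ℂ → ℂ, IsG Y → ∀ ζ ∈ ball (0 : ℂ) 1,
    ‖hh Y ζ + (starRingEnd ℂ) (hh Y ((starRingEnd ℂ) ζ))‖ * |ζ.re * ζ.im| * (1 - ‖ζ‖ ^ 2) ^ 2 ≤
      4 * ep Y) → UBound

/-- TASK H1: bound for the logarithmic derivative of `Y` -/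
def TaskH1 : Prop :=
  TaskC → TaskD → ∀ Y : ℂ → ℂ, IsG Y → ∀ ζ ∈ ball (0 : ℂ) 1,
    -(2 * ‖ζ‖ ^ 2 / (1 - ‖ζ‖ ^ 2)) ≤ (ζ * deriv Y ζ / Y ζ).re

/-- The conclusion of TASK H2 -/
def YBound : Prop := ∀ Y : ℂ → ℂ, IsG Y → ∀ z ∈ ball (0 : ℂ) 1, 1 - ‖z‖ ^ 2 ≤ ‖Y z‖

/-- TASK H2: lower bound for `Y` (growth theorem) -/
def TaskH2 : Prop :=
  (∀ Y : ℂ → ℂ, IsG Y → ∀ ζ ∈ ball (0 : ℂ) 1,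
    -(2 * ‖ζ‖ ^ 2 / (1 - ‖ζ‖ ^ 2)) ≤ (ζ * deriv Y ζ / Y ζ).re) → YBound

/-- The conclusion of TASK I1 -/
def CoeffBound : Prop :=
  ∀ (f Y : ℂ → ℂ), InS f → IsG Y → (∀ z ∈ ball (0 : ℂ) 1, f (z ^ 2) * Y z ^ 2 = z ^ 2) →
    ∀ n : ℕ, 2 ≤ n →
      |((n : ℂ) - coeff n f).re| ≤ 10 ^ 6 * (n : ℝ) ^ 6 * ep Y ∧
      (coeff n f).im ^ 2 ≤ 10 ^ 7 * (n : ℝ) ^ 10 * ep Y

/-- TASK I1: Taylor coefficients of `f` -/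
def TaskI1 : Prop := TaskB → UBound → YBound → CoeffBound

/-- The theorem -/
def Goal : Prop :=
  ∀ f : ℂ → ℂ, InS f → ∀ n : ℕ, 2 ≤ n →
    |((n : ℂ) - coeff n f).re| ≤ 10 ^ 6 * (n : ℝ) ^ 6 * ((2 : ℂ) - coeff 2 f).re ∧
    |(n : ℝ) - ‖coeff n f‖| ≤ 10 ^ 8 * (n : ℝ) ^ 9 * (2 - ‖coeff 2 f‖)

/-- TASK I2: rotation and conclusion -/
def TaskI2 : Prop := TaskA → TaskB → CoeffBound → Goal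

theorem assemble (hA : TaskA) (hB : TaskB) (hC1 : TaskC1) (hC2 : TaskC2) (hC3 : TaskC3)
    (hC4 : TaskC4) (hC5a : TaskC5a) (hC5 : TaskC5) (hD : TaskD) (hE1 : TaskE1) (hE2 : TaskE2) (hF : TaskF)
    (hG : TaskG) (hH1 : TaskH1) (hH2 : TaskH2) (hI1 : TaskI1) (hI2 : TaskI2) : Goal := by
  have hC : TaskC := hC5 hC5a hC2 (hC3 hC1) hC4
  have hS : Star := hE2 hD (hE1 hC)
  have hU : UBound := hG (fun Y hY => (hB Y hY).1) (hF hB hS)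
  have hY : YBound := hH2 (hH1 hC hD)
  exact hI2 hA hB (hI1 hB hU hY)

end Pool.Agent.H33R3.Bom
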